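import Pool.Agent.Lib.MP_c28bf6_an.Convert

/-!
# Choreographies of seven bodies that are not coplanar: statements

Blueprint. `lam j k` is `1/r_jk^3` (and `0` for `j = k`), `V` is the space of the restrictions of
affine functions to the seven bodies, `c`, `s` are the real and imaginary parts of the powers of a
primitive 7th root of unity `zeta` (two vectors of the span of the mass differences).
-/

open Finset

namespace Pool.Agent.Lib.MP_c28bf6_an.N7

/-- real parts of the powers of `z` -/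
noncomputable def cc (z : ℂ) (j : ZMod 7) : ℝ := (z ^ j.val).re

/-- imaginary parts of the powers of `z` -/
noncomputable def ss (z : ℂ) (j : ZMod 7) : ℝ := (z ^ j.val).im

/-- functions that vanish where `p` holds -/
def vanish (p : ZMod 7 → Prop) : Submodule ℝ (ZMod 7 → ℝ) where
  carrier := {f | ∀ j, p j → f j = 0}
  add_mem' := by
    intro a b ha hb j hj
    simp [ha j hj, hb j hj]
  zero_mem' := by
    intro j _
    rfl
  smul_mem' := by
    intro r a ha j hj
    simp [ha j hj]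

/-- restrictions of the affine functions of `E` to the points `x j` -/
noncomputable def aff {E : Type*} [NormedAddCommGroup E] [InnerProductSpace ℝ E]
    (x : ZMod 7 → E) : Submodule ℝ (ZMod 7 → ℝ) where
  carrier := {f | ∃ (b : ℝ) (e : E), ∀ j, f j = b + inner ℝ e (x j)}
  add_mem' := by
    rintro f g ⟨b, e, h⟩ ⟨b', e', h'⟩
    refine ⟨b + b', e + e', fun j => ?_⟩
    rw [Pi.add_apply, h, h', inner_add_left]
    ring
  zero_mem' := ⟨0, 0, fun j => by simp⟩
  smul_mem' := by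
    rintro r f ⟨b, e, h⟩
    refine ⟨r * b, r • e, fun j => ?_⟩
    rw [Pi.smul_apply, h, inner_smul_left, smul_eq_mul]
    simp
    ring

/-- `mu lam c j = sum_k lam j k * c k` -/
def mu (lam : ZMod 7 → ZMod 7 → ℝ) (c : ZMod 7 → ℝ) (j : ZMod 7) : ℝ := ∑ k, lam j k * c k

/-- **Spectral piece.** Take `zeta0 = exp(2 pi i/7)` and for `k : ℕ` the sum
`G k = ∑ j, zeta0 ^ (k * j.val) * w j`. `G 0 = 0` by hypothesis. If `G k = 0` for all `k = 1..6` too,
then `w = 0` by Fourier inversion (`7 w j = ∑_k zeta0 ^ (-(k j)) G k`), a contradiction. So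
`G k ≠ 0` for some `k` in `1..6`; put `zeta = zeta0 ^ k`, primitive because `7` is prime. Write
`G k = a + i b`. The vectors `w1 j = ∑ s, cc zeta s * w (j + s)` and
`w2 j = ∑ s, ss zeta s * w (j + s)` are in `W`, and `w1 j + i w2 j = zeta ^ (-j) (a + i b)`
(substitute `s = s' - j`), where `zeta ^ (-j) = cc zeta j - i ss zeta j` (norm one). Hence
`w1 = a cc + b ss`, `w2 = b cc - a ss`, so `cc = (a w1 + b w2)/(a^2 + b^2)`,
`ss = (b w1 - a w2)/(a^2 + b^2)` are in `W`. -/
def S_spec : Prop :=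
  ∀ W : Submodule ℝ (ZMod 7 → ℝ), (∀ w ∈ W, ∑ j, w j = 0) →
    (∀ w ∈ W, ∀ r : ZMod 7, (fun j => w (j + r)) ∈ W) → (∃ w ∈ W, w ≠ 0) →
    ∃ z : ℂ, IsPrimitiveRoot z 7 ∧ cc z ∈ W ∧ ss z ∈ W

/-- **Trigonometric facts.** `cc z j ^ 2 + ss z j ^ 2 = ‖z ^ j‖ ^ 2 = 1`. For `j ≠ k`,
`cc z j * ss z k - cc z k * ss z j = Im (conj (z ^ j) * z ^ k) = Im (z ^ (k - j))` (exponent mod 7);
if this is `0` then `z ^ (k - j)` is real of norm one, so its square is one, and as its order divides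
`7` it is one, so `j = k`. -/
def S_trig : Prop :=
  ∀ z : ℂ, IsPrimitiveRoot z 7 → (∀ j, cc z j ^ 2 + ss z j ^ 2 = 1) ∧
    (∀ j k, j ≠ k → cc z j * ss z k - cc z k * ss z j ≠ 0)

/-- **Orthogonality.** Let `A c f j = ∑ k, lam j k * c k * f k`. By `hc` (with `lam j j = 0` not even
needed) `A c f j = f j * mu lam c j` for `f ∈ V`, and the same for `s`. By symmetry of `lam`,
`∑ j, s j * g j * A c f j = ∑ k, c k * f k * A s g k`, so
`∑ j, s j * g j * f j * mu lam c j = ∑ j, c j * f j * g j * mu lam s j`. -/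
def S_orth : Prop :=
  ∀ (c s : ZMod 7 → ℝ) (lam : ZMod 7 → ZMod 7 → ℝ) (V : Submodule ℝ (ZMod 7 → ℝ)),
    (∀ j k, lam j k = lam k j) →
    (∀ f ∈ V, ∀ j, ∑ k, c k * lam j k * (f k - f j) = 0) →
    (∀ f ∈ V, ∀ j, ∑ k, s k * lam j k * (f k - f j) = 0) →
    ∀ f ∈ V, ∀ g ∈ V, ∑ j, (s j * mu lam c j - c j * mu lam s j) * f j * g j = 0

/-- **Totally isotropic spaces.** Let `B = {j | b j ≠ 0}` and let `R` be the image of `V` under the
restriction to `B` (functions on the subtype). The kernel of the restriction on `V` is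
`V ⊓ vanish B`, so `finrank R = finrank V - finrank (V ⊓ vanish B)`. The form
`(f, g) ↦ ∑_{j ∈ B} b j f j g j` is nondegenerate on functions on `B` and vanishes on `R × R`: the
map `f ↦ b f` is injective on functions on `B` and maps `R` into the orthogonal complement of `R`
(for the dot product), which has dimension `card B - finrank R`. So `2 finrank R ≤ card B`. -/
def S_isot : Prop :=
  ∀ (b : ZMod 7 → ℝ) (V : Submodule ℝ (ZMod 7 → ℝ)),
    (∀ f ∈ V, ∀ g ∈ V, ∑ j, b j * f j * g j = 0) →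
    2 * Module.finrank ℝ V ≤ (univ.filter (fun j => b j ≠ 0)).card +
      2 * Module.finrank ℝ (V ⊓ vanish (fun j => b j ≠ 0) : Submodule ℝ (ZMod 7 → ℝ))

/-- **Functions with small support.** `V ⊓ vanish p` consists of functions supported on
`A = {j | ¬ p j}` that are orthogonal to `c` and `s`. If `A` is empty it is `0`; if `A = {j}` it is `0`
since `(c j, s j) ≠ (0, 0)`; if `A` has at least two elements `j ≠ k`, then the restrictions of `c`
and `s` to `A` are linearly independent (the minor at `j, k` is not `0`), so the space of functions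
supported on `A` and orthogonal to both has dimension `card A - 2`. (The hypothesis for `j ≠ k`
gives `(c j, s j) ≠ (0, 0)`.) -/
def S_code : Prop :=
  ∀ (c s : ZMod 7 → ℝ) (V : Submodule ℝ (ZMod 7 → ℝ)) (p : ZMod 7 → Prop) [DecidablePred p],
    (∀ j k, j ≠ k → c j * s k - c k * s j ≠ 0) →
    (∀ f ∈ V, ∑ j, c j * f j = 0) → (∀ f ∈ V, ∑ j, s j * f j = 0) →
    Module.finrank ℝ (V ⊓ vanish p : Submodule ℝ (ZMod 7 → ℝ)) ≤
      (univ.filter (fun j => ¬ p j)).card - 2

/-- **The form vanishes.** Suppose `b ≠ 0`, `B = {j | b j ≠ 0}`, `n = card B ≥ 1`. By `S_isot` and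
`S_code` (with `p j = (b j ≠ 0)`, so that `A` has `7 - n` elements), `8 ≤ 2 finrank V ≤
n + 2 (7 - n - 2)` with natural subtraction. For `n = 6, 7` this reads `8 ≤ n`, false; for `n = 3, 4, 5`
it reads `8 ≤ 10 - n`, false. So `n = 1` or `2`. With `f = g = 1`: `∑ b j = 0`, which excludes `n = 1`.
If `B = {j, k}`, `j ≠ k`, take `g ∈ V` with `g j ≠ g k`; then `b j + b k = 0` and
`b j g j + b k g k = 0` give `b j (g j - g k) = 0`, a contradiction. -/
def S_zero : Prop :=
  ∀ (c s b : ZMod 7 → ℝ) (V : Submodule ℝ (ZMod 7 → ℝ)),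
    (∀ j k, j ≠ k → c j * s k - c k * s j ≠ 0) →
    (∀ f ∈ V, ∑ j, c j * f j = 0) → (∀ f ∈ V, ∑ j, s j * f j = 0) →
    4 ≤ Module.finrank ℝ V → (fun _ => (1 : ℝ)) ∈ V →
    (∀ j k, j ≠ k → ∃ f ∈ V, f j ≠ f k) →
    (∀ f ∈ V, ∀ g ∈ V, ∑ j, b j * f j * g j = 0) → ∀ j, b j = 0

/-- **Rigidity.** Let `U` be the orthogonal complement of `V` (dot product), `finrank U ≤ 3`. `U`
contains `c = cc z`, `s = ss z`, which are linearly independent and satisfy `c·c = s·s = 7/2`,
`c·s = 0`, `c·1 = s·1 = 0`. Choose `h ∈ U` with `U = span {c, s, h}`, `h·c = h·s = 0` (if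
`finrank U = 2` take `h = 0`; otherwise take any third element and subtract its projection). As
`1 ∈ V`, `h·1 = 0`. By hypothesis `u c` and `u s` are in `U`: `u c = a1 c + a2 s + a3 h`,
`u s = b1 c + b2 s + b3 h`. With `z ^ j = c j + i s j` this gives complex numbers `P, Q, K` with
`u j * z ^ j = P * z ^ j + Q * z ^ (-j) + K * h j` for all `j` (where `z ^ (-j) = z ^ (6 j)`).
For `m : ℕ` let `U m = ∑ j, u j * z ^ (m j)` and `H m = ∑ j, h j * z ^ (m j)` (they depend on
`m mod 7`, and `U (7 - m)`, `H (7 - m)` are the complex conjugates of `U m`, `H m`). `H 0 = H 1 = H 6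
= 0`. Multiplying the relation by `z ^ (m j)` and summing over `j`:
`U (m+1) = 7 P [m = 6] + 7 Q [m = 1] + K H m` for `m = 0..6`. So `U 1 = K H 0 = 0`, hence `U 6 = 0`
(conjugate), and `U 6 = K H 5`, `U 3 = K H 2`, `U 4 = K H 3`, `U 5 = K H 4`. If `K ≠ 0`: `H 5 = 0`, so
`H 2 = 0`, `U 3 = 0`, so `U 4 = 0`, `H 3 = 0`, `H 4 = 0`, thus all `H m = 0` and `h = 0`. In all cases
`K h = 0`, i.e. `K H m = 0` for all `m`, so `U 3 = U 4 = U 5 = U 6 = U 1 = 0` and `U 2` is the
conjugate of `U 5`, so `U 2 = 0`. By Fourier inversion `7 u j = U 0` for all `j`. -/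
def S_rigid : Prop :=
  ∀ (z : ℂ) (u : ZMod 7 → ℝ) (V : Submodule ℝ (ZMod 7 → ℝ)), IsPrimitiveRoot z 7 →
    (∀ f ∈ V, ∑ j, cc z j * f j = 0) → (∀ f ∈ V, ∑ j, ss z j * f j = 0) →
    4 ≤ Module.finrank ℝ V → (fun _ => (1 : ℝ)) ∈ V →
    (∀ f ∈ V, ∑ j, u j * cc z j * f j = 0) → (∀ f ∈ V, ∑ j, u j * ss z j * f j = 0) →
    ∀ i j, u i = u j

/-- **lam is constant off the diagonal.** With `c = cc z`, `s = ss z` and
`b j = s j * mu lam c j - c j * mu lam s j`, `S_orth` gives `∑ b f g = 0` for `f, g ∈ V`, so `b = 0` by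
`S_zero` (uniformity by `S_trig`). Let `al j = c j * mu lam c j + s j * mu lam s j`; since
`c j ^ 2 + s j ^ 2 = 1` and `b j = 0`, `mu lam c j = al j * c j` and `mu lam s j = al j * s j`. Fix `j`
and let `u k = lam j k` for `k ≠ j` and `u j = - al j`. For `f ∈ V`,
`∑ k, lam j k * c k * f k = f j * mu lam c j = al j * c j * f j` (hypothesis, `lam j j = 0`), so
`∑ k, u k * c k * f k = 0`, and the same with `s`. By `S_rigid`, `u` is constant. So for every `j` all
`lam j k`, `k ≠ j`, are equal, and by symmetry of `lam` all `lam j k` with `j ≠ k` are equal. -/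
def S_const : Prop :=
  ∀ (z : ℂ) (lam : ZMod 7 → ZMod 7 → ℝ) (V : Submodule ℝ (ZMod 7 → ℝ)), IsPrimitiveRoot z 7 →
    (∀ j k, lam j k = lam k j) → (∀ j, lam j j = 0) →
    (∀ f ∈ V, ∑ j, cc z j * f j = 0) → (∀ f ∈ V, ∑ j, ss z j * f j = 0) →
    4 ≤ Module.finrank ℝ V → (fun _ => (1 : ℝ)) ∈ V →
    (∀ j k, j ≠ k → ∃ f ∈ V, f j ≠ f k) →
    (∀ f ∈ V, ∀ j, ∑ k, cc z k * lam j k * (f k - f j) = 0) →
    (∀ f ∈ V, ∀ j, ∑ k, ss z k * lam j k * (f k - f j) = 0) →
    ∃ e : ℝ, ∀ j k, j ≠ k → lam j k = e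

/-- **Equidistant points.** All the norms `‖x k - x j‖`, `j ≠ k`, are equal to some `r > 0` (they are
positive and their cubes are equal, `inv_pow_three_inj`). From `∑ c = 0` and `∑ c j • x j = 0`:
`0 = 2 ‖∑ c j • x j‖^2 = - ∑ j k, c j c k ‖x j - x k‖^2 = - r^2 ((∑ c)^2 - ∑ c^2) = r^2 ∑ c^2 > 0`. -/
def S_equid.{u} : Prop :=
  ∀ (E : Type u) [NormedAddCommGroup E] [InnerProductSpace ℝ E] (x : ZMod 7 → E)
    (c : ZMod 7 → ℝ) (e : ℝ), Function.Injective x → ∑ j, c j = 0 → ∑ j, c j • x j = 0 →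
    (∃ j, c j ≠ 0) → (∀ j k, j ≠ k → (‖x k - x j‖ ^ 3)⁻¹ = e) → False

/-- **Dimension of the space of affine functions.** Let `S = vectorSpan` (finite-dimensional, it is
spanned by the `x j - x 0`). The linear map `S → (ZMod 7 → ℝ)`, `e ↦ (⟪e, x j - x 0⟫)_j`, is
injective (a kernel element is orthogonal to `S` and in `S`), its range is contained in `aff x`
(`b = - ⟪e, x 0⟫`) and consists of functions that vanish at `j = 0`; the constant function `1` is in
`aff x` and not in the range. So `finrank (aff x) ≥ finrank S + 1`. -/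
def S_dim.{u} : Prop :=
  ∀ (E : Type u) [NormedAddCommGroup E] [InnerProductSpace ℝ E] (x : ZMod 7 → E),
    3 ≤ Module.finrank ℝ (vectorSpan ℝ (Set.range x)) → 4 ≤ Module.finrank ℝ (aff x)

/-- **Static theorem.** Apply `S_const` to `V = aff x`, `lam j k = (‖x k - x j‖ ^ 3)⁻¹` (`0` for
`j = k`, symmetric). `V` is orthogonal to `c = cc z` and `s = ss z` because `∑ c = 0`, `∑ c • x = 0`
(and for `s`); `1 ∈ V`; `V` separates points: for `x j ≠ x k` take `f i = ⟪x j - x k, x i⟫`. For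
`f = b + ⟪e, x ·⟫`: `∑ k, c k * lam j k * (f k - f j) = ⟪e, ∑ k, c k • force (x k - x j)⟫ = 0`.
`4 ≤ finrank V` by `S_dim`. So `lam` is constant off the diagonal, which contradicts `S_equid`
(`cc z 0 = 1 ≠ 0`). -/
def S_static.{u} : Prop :=
  ∀ (E : Type u) [NormedAddCommGroup E] [InnerProductSpace ℝ E] (x : ZMod 7 → E) (z : ℂ),
    IsPrimitiveRoot z 7 → Function.Injective x →
    ∑ j, cc z j = 0 → ∑ j, ss z j = 0 → ∑ j, cc z j • x j = 0 → ∑ j, ss z j • x j = 0 →
    (∀ j, ∑ k, cc z k • force (x k - x j) = 0) → (∀ j, ∑ k, ss z k • force (x k - x j) = 0) →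
    3 ≤ Module.finrank ℝ (vectorSpan ℝ (Set.range x)) → False

/-- **Main theorem.** `h.core : Core 7 (fun j => m j) (bodyZ 6 x T) (T / 7)`. If two masses differ,
then `W 7 m` contains a nonzero vector (`diff_mem`), is invariant under shifts (`W_shift`), and its
elements have sum `0` (`sum_W`); by `S_spec` it contains `cc z`, `ss z`. `equil_W`, `dipole_W` and
`sum_W` give the hypotheses of `S_static` for the points `bodyZ 6 x T j t`, injective by `nocol`; the
range of `fun i : Fin 7 => body 7 x T i t` is the range of `fun j => bodyZ 6 x T j t`. -/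
def S_main.{u} : Prop :=
  ∀ (E : Type u) [NormedAddCommGroup E] [InnerProductSpace ℝ E] (m : Fin 7 → ℝ) (x : ℝ → E)
    (T : ℝ), IsChoreography 7 m x T → ∀ t : ℝ,
    3 ≤ Module.finrank ℝ (vectorSpan ℝ (Set.range (fun i => body 7 x T i t))) →
    ∀ i j, m i = m j

end Pool.Agent.Lib.MP_c28bf6_an.N7
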