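import Pool.Agent.Lib.MP_c28bf6_an.N7.P.code
import Pool.Agent.Lib.MP_c28bf6_an.N7.P.const
import Pool.Agent.Lib.MP_c28bf6_an.N7.P.dim
import Pool.Agent.Lib.MP_c28bf6_an.N7.P.equid
import Pool.Agent.Lib.MP_c28bf6_an.N7.P.isot
import Pool.Agent.Lib.MP_c28bf6_an.N7.P.main
import Pool.Agent.Lib.MP_c28bf6_an.N7.P.orth
import Pool.Agent.Lib.MP_c28bf6_an.N7.P.rigid
import Pool.Agent.Lib.MP_c28bf6_an.N7.P.spec
import Pool.Agent.Lib.MP_c28bf6_an.N7.P.static
import Pool.Agent.Lib.MP_c28bf6_an.N7.P.trig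
import Pool.Agent.Lib.MP_c28bf6_an.N7.P.zero

/-!
# Choreographies of seven bodies that are not coplanar: assembly
-/

namespace Pool.Agent.Lib.MP_c28bf6_an.N7

theorem all.{u} : S_main.{u} :=
  p_main p_spec (p_static (p_const p_trig p_orth (p_zero p_isot p_code) p_rigid) p_equid p_dim)

end Pool.Agent.Lib.MP_c28bf6_an.N7
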